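import Pool.Agent.MWGR.StmtsD

/-!
# MWGR, row NT1
-/

namespace Pool.Agent.MWGR.H88

open Pool.Agent.Helper14_MV Pool.Agent.Helper2_MV Pool.Agent.MVO Pool.Agent.MWL Pool.Agent.MWS
  Pool.Agent.MWH

theorem fm_rep (g : ℕ → List ℕ) (c k : ℕ) (h : g c = [c]) :
    (List.replicate k c).flatMap g = List.replicate k c := by
  induction k with
  | zero => rfl
  | succ k ih => rw [List.replicate_succ, List.flatMap_cons, h, ih]; rfl

theorem xx (a b : ℕ) (q : List ℕ) : X a ++ (X b ++ q) = X (a + b) ++ q := by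
  rw [← List.append_assoc]
  congr 1
  exact (List.replicate_add a b 0).symm

/-- `c ↦ A c` -/
def ins (c : ℕ) (A : List ℕ) : ℕ → List ℕ := fun d => if d = c then A ++ [d] else [d]

/-- NT1 -/
theorem nt1 (hE : ExgStmt) (hN : NtaStmt) : Nt1Stmt := by
  intro n θ hB s s' t' c c' r r' hs hst ht hc hr hr' h
  have hn := hB.pos
  -- the multiplicity of the light letter is made one
  have h1 := hN n θ hB (X s) (2 :: X c) [] (X s') (X t' ++ 2 :: X c') [] 1 3 r r' hr hr'
    (by omega) (by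
      intro D hD
      simp only [List.mem_cons, List.not_mem_nil, or_false] at hD
      rcases hD with rfl | rfl | rfl | rfl | rfl | rfl <;>
        simp [List.mem_replicate]) (by
      simpa only [List.append_nil, List.cons_append, List.append_assoc] using h)
  simp only [List.cons_append, List.append_assoc] at h1
  -- insertion of `X n` in front of `2`
  have h2 := h1.sub (ins 2 (X n))
  simp only [List.flatMap_append, List.flatMap_cons, List.flatMap_nil,
    fm_rep (ins 2 (X n)) 0 _ rfl, ins, if_true, if_false, List.append_nil, List.cons_append,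
    List.append_assoc, List.nil_append, OfNat.one_ne_ofNat,
    Nat.reduceEqDiff] at h2
  have h3 : RR θ (X s' ++ 1 :: (X t' ++ (X n ++ 2 :: (X c' ++ [3, 1]))))
      (X s' ++ 1 :: (X t' ++ 2 :: (X c' ++ [3, 1]))) := by
    have e := hE n θ hB (X s' ++ [1]) (2 :: (X c' ++ [3, 1])) 0 (t' + n) t'
      (by simp [Nat.ModEq])
    rw [xx]
    have fin : ∀ u : ℕ, (X s' ++ [1]) ++ (List.replicate u 0 ++ 2 :: (X c' ++ [3, 1])) =
        X s' ++ 1 :: (X u ++ 2 :: (X c' ++ [3, 1])) := fun u => by simp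
    rw [fin, fin] at e
    rcases Nat.eq_zero_or_pos s' with h0 | h0
    · exact e.2.1 (by omega) (by omega)
    · refine e.1 ?_ (by omega) ht
      exact List.mem_append_left _ (List.mem_replicate.2 ⟨by omega, rfl⟩)
  have h4 : RR θ (X s ++ 1 :: (X n ++ 2 :: (X c ++ [3, 1])))
      (X s ++ 1 :: 2 :: (X c ++ [3, 1])) := θ.trans h2 (θ.trans h3 h1.symm)
  -- `s` to `2`
  have h5 : RR θ (X 2 ++ 1 :: (X n ++ 2 :: (X c ++ [3, 1])))
      (X 2 ++ 1 :: 2 :: (X c ++ [3, 1])) := by
    have h6 := (RR.refl (β := θ) (X ((n - 1) * s + 2))).append h4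
    have hk : (n - 1) * s + 2 + s = n * s + 2 := by
      obtain ⟨m, rfl⟩ : ∃ m, n = m + 1 := ⟨n - 1, by omega⟩
      simp only [Nat.add_sub_cancel]
      ring
    have hmod : n * s + 2 ≡ 2 [MOD n] := by simp [Nat.ModEq]
    rw [xx, xx, hk] at h6
    have a1 := (hE n θ hB [] (1 :: (X n ++ 2 :: (X c ++ [3, 1]))) 0 _ _ hmod).2.1 (by omega) le_rfl
    have a2 := (hE n θ hB [] (1 :: 2 :: (X c ++ [3, 1])) 0 _ _ hmod).2.1 (by omega) le_rfl
    exact θ.trans a1.symm (θ.trans h6 a2)
  -- `c` to `1`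
  have h7 := h5.sub (ins 3 (X ((n - 1) * c + 1)))
  simp only [List.flatMap_append, List.flatMap_cons, List.flatMap_nil,
    fm_rep (ins 3 (X ((n - 1) * c + 1))) 0 _ rfl, ins, if_true, if_false, List.append_nil,
    List.cons_append, List.append_assoc, List.nil_append, OfNat.one_ne_ofNat,
    Nat.reduceEqDiff] at h7
  rw [xx] at h7
  have hk : c + ((n - 1) * c + 1) = n * c + 1 := by
    obtain ⟨m, rfl⟩ : ∃ m, n = m + 1 := ⟨n - 1, by omega⟩
    simp only [Nat.add_sub_cancel]
    ring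
  have hmod : n * c + 1 ≡ 1 [MOD n] := by simp [Nat.ModEq]
  rw [hk] at h7
  have b1 := (hE n θ hB (X 2 ++ 1 :: (X n ++ [2])) [3, 1] 0 _ _ hmod).1 (by simp) (by omega) le_rfl
  have b2 := (hE n θ hB (X 2 ++ 1 :: [2]) [3, 1] 0 _ _ hmod).1 (by simp) (by omega) le_rfl
  simp only [List.cons_append, List.append_assoc, List.nil_append] at b1 b2
  have h8 : RR θ (X 2 ++ 1 :: (X n ++ 2 :: (List.replicate 1 0 ++ [3, 1])))
      (X 2 ++ 1 :: 2 :: (List.replicate 1 0 ++ [3, 1])) := θ.trans b1.symm (θ.trans h7 b2)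
  exact h8.symm

end Pool.Agent.MWGR.H88
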